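import Pool.Agent.H121.GA.IfB

/-! Project GA, subtask GA-WEYA: an approximate eigenfunction charges the spectral measures. -/

set_option autoImplicit false

open scoped BigOperators InnerProductSpace Topology ENNReal
open Filter MeasureTheory

namespace Pool.Agent.H170.GA

open Pool.Agent.H121.GA
open Pool.Agent.Y662.TR (LL dv)
open Pool.Agent.H987.Z (Rs)

section gen

variable {ι : Type}

/-- `‖R z φ‖² Im z = Im ⟪φ, R z φ⟫` -/
theorem nsq {R : ℂ → LL ι →L[ℂ] LL ι} (hR : Rf R) (z : ℂ) (hz : z.im ≠ 0) (φ : LL ι) :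
    z.im * ‖R z φ‖ ^ 2 = (⟪φ, R z φ⟫_ℂ).im := by
  have hz' : (starRingEnd ℂ z).im ≠ 0 := by simpa using hz
  have h1 := hR.id (starRingEnd ℂ z) z hz' hz φ
  have h2 := hR.ad z hz φ (R z φ)
  have h3 := hR.ad z hz φ φ
  have h4 : ⟪φ, R (starRingEnd ℂ z) φ⟫_ℂ - ⟪φ, R z φ⟫_ℂ =
      (starRingEnd ℂ z - z) * ⟪φ, R (starRingEnd ℂ z) (R z φ)⟫_ℂ := by
    rw [← inner_sub_right, h1, inner_smul_right]
  rw [← h2, ← h3, inner_self_eq_norm_sq_to_K] at h4
  have h5 : ⟪R z φ, φ⟫_ℂ = starRingEnd ℂ ⟪φ, R z φ⟫_ℂ := (inner_conj_symm _ _).symm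
  rw [h5] at h4
  have h6 := congrArg Complex.im h4
  have h7 : (((‖R z φ‖ : ℝ) : ℂ) ^ 2) = ((‖R z φ‖ ^ 2 : ℝ) : ℂ) := by push_cast; rfl
  simp only [Complex.coe_algebraMap] at h6
  rw [h7] at h6
  simp only [Complex.sub_im, Complex.conj_im, Complex.mul_im, Complex.sub_re, Complex.conj_re,
    Complex.ofReal_re, Complex.ofReal_im] at h6
  linarith

/-- the bound for the resolvent off the support of the spectral measure -/
theorem nbd {R : ℂ → LL ι →L[ℂ] LL ι} (hR : Rf R) (E r η : ℝ) (hr : 0 < r) (hη : 0 < η)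
    (φ : LL ι) (hN : ∀ m : Measure ℝ, SpR R φ m → m (Set.Ioo (E - 2 * r) (E + 2 * r)) = 0) :
    2 * r * ‖R ((E : ℂ) + (η : ℂ) * Complex.I) φ‖ ≤ ‖φ‖ := by
  set z : ℂ := (E : ℂ) + (η : ℂ) * Complex.I with hzd
  have hzi : z.im = η := by simp [hzd]
  have hzr : z.re = E := by simp [hzd]
  have hz : z.im ≠ 0 := by rw [hzi]; exact hη.ne'
  obtain ⟨m, hm, hmu⟩ := hR.sp φ
  have hm0 := hN m hm
  haveI := hm.1
  have h1 := nsq hR z hz φ
  rw [hm.2 z hz, hzi] at h1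
  have hint : Integrable (fun x : ℝ => ((x : ℂ) - z)⁻¹) m := by
    refine Integrable.of_bound ?_ (1 / η) ?_
    · refine (Measurable.inv ?_).aestronglyMeasurable
      exact (Complex.measurable_ofReal.sub_const z)
    · refine ae_of_all _ fun x => ?_
      rw [norm_inv, ← one_div]
      refine one_div_le_one_div_of_le hη ?_
      have : |((x : ℂ) - z).im| ≤ ‖(x : ℂ) - z‖ := Complex.abs_im_le_norm _
      rw [Complex.sub_im, Complex.ofReal_im, hzi, zero_sub, abs_neg, abs_of_pos hη] at this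
      exact this
  have him : (∫ x : ℝ, ((x : ℂ) - z)⁻¹ ∂m).im = ∫ x : ℝ, (((x : ℂ) - z)⁻¹).im ∂m := by
    have := integral_im (𝕜 := ℂ) hint
    simpa using this.symm
  rw [him] at h1
  have hae : ∀ᵐ x : ℝ ∂m, (((x : ℂ) - z)⁻¹).im ≤ η / (2 * r) ^ 2 := by
    have : ∀ᵐ x : ℝ ∂m, x ∉ Set.Ioo (E - 2 * r) (E + 2 * r) := measure_eq_zero_iff_ae_notMem.1 hm0
    filter_upwards [this] with x hx
    rw [Complex.inv_im, Complex.sub_im, Complex.ofReal_im, hzi, zero_sub, neg_neg]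
    have hx2 : (2 * r) ^ 2 ≤ (x - E) ^ 2 := by
      by_contra hcc
      push Not at hcc
      apply hx
      have := abs_lt_of_sq_lt_sq hcc (by positivity)
      rw [abs_lt] at this
      constructor <;> linarith [this.1, this.2]
    have hn : Complex.normSq ((x : ℂ) - z) = (x - E) ^ 2 + η ^ 2 := by
      rw [Complex.normSq_apply, Complex.sub_re, Complex.sub_im, Complex.ofReal_re,
        Complex.ofReal_im, hzi, hzr]
      ring
    rw [hn]
    have h4 : 0 < (2 * r) ^ 2 := by positivity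
    gcongr
    nlinarith [sq_nonneg η]
  have h2 : ∫ x : ℝ, (((x : ℂ) - z)⁻¹).im ∂m ≤ ∫ _x : ℝ, η / (2 * r) ^ 2 ∂m := by
    refine integral_mono_ae ?_ (integrable_const _) hae
    exact hint.im
  rw [integral_const, smul_eq_mul] at h2
  have h3 : m.real Set.univ = ‖φ‖ ^ 2 := by
    rw [Measure.real, hmu, ENNReal.toReal_ofReal (by positivity)]
  rw [h3, ← h1] at h2
  have h4 : ‖R z φ‖ ^ 2 ≤ ‖φ‖ ^ 2 / (2 * r) ^ 2 := by
    have h5 : η * ‖R z φ‖ ^ 2 ≤ η * (‖φ‖ ^ 2 / (2 * r) ^ 2) := by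
      calc η * ‖R z φ‖ ^ 2 ≤ _ := h2
        _ = _ := by ring
    exact le_of_mul_le_mul_left h5 hη
  rw [le_div_iff₀ (by positivity)] at h4
  have h6 : (2 * r * ‖R z φ‖) ^ 2 ≤ ‖φ‖ ^ 2 := by
    calc (2 * r * ‖R z φ‖) ^ 2 = ‖R z φ‖ ^ 2 * (2 * r) ^ 2 := by ring
      _ ≤ _ := h4
  exact (abs_le_of_sq_le_sq' h6 (norm_nonneg _)).2

end gen

theorem weyA (hA : S_ruA) (hB : S_ruB) (hC : S_closR) : S_weyA := by
  intro ι _ T hT V E r u f hr hu hf he
  by_contra hcon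
  push Not at hcon
  have hR : Rf (RU T V) := hB ι T hT V
  have hN := hC ι (RU T V) hR (Set.Ioo (E - 2 * r) (E + 2 * r)) measurableSet_Ioo hcon
  have hη : 0 < r / 2 := by positivity
  have hz : ((E : ℂ) + ((r / 2 : ℝ) : ℂ) * Complex.I).im ≠ 0 := by
    simp only [Complex.add_im, Complex.ofReal_im, Complex.mul_im, Complex.ofReal_re,
      Complex.I_im, Complex.I_re, mul_one, mul_zero, zero_add, add_zero]
    exact hη.ne'
  obtain ⟨-, -, -, hU⟩ := hA ι T hT V _ hz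
  set z : ℂ := (E : ℂ) + ((r / 2 : ℝ) : ℂ) * Complex.I with hzd
  have hu' : u = RU T V z (f + ((E : ℂ) - z) • u) := by
    refine hU _ u fun x => ?_
    have h1 := he x
    have h2 : (f + ((E : ℂ) - z) • u) x = f x + ((E : ℂ) - z) * u x := by
      rw [lp.coeFn_add, Pi.add_apply, lp.coeFn_smul, Pi.smul_apply, smul_eq_mul]
    rw [h2, ← h1]
    ring
  have hb := nbd hR E r (r / 2) hr hη (f + ((E : ℂ) - z) • u) (fun m hm => hN _ m hm)
  rw [← hzd, ← hu'] at hb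
  have hn : ‖f + ((E : ℂ) - z) • u‖ ≤ r * ‖u‖ + r / 2 * ‖u‖ := by
    refine (norm_add_le _ _).trans ?_
    have h3 : ‖((E : ℂ) - z) • u‖ = r / 2 * ‖u‖ := by
      rw [norm_smul]
      congr 1
      rw [hzd]
      have : (E : ℂ) - ((E : ℂ) + ((r / 2 : ℝ) : ℂ) * Complex.I) =
        -(((r / 2 : ℝ) : ℂ) * Complex.I) := by ring
      rw [this, norm_neg, norm_mul, Complex.norm_I, mul_one, Complex.norm_real,
        Real.norm_of_nonneg hη.le]
    rw [h3]
    gcongr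
  have hu0 : 0 < ‖u‖ := norm_pos_iff.2 hu
  nlinarith [mul_pos hr hu0]

end Pool.Agent.H170.GA
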